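import Pool.Agent.N637.SLK.Ari
import Pool.Agent.N763.QB.Ff
import Pool.Agent.N875.X15.Conv

/-!
# Project SLK (helper637), part LG (helper891): the odd places not dividing `m`, solvability

After `Pool/Agent/N427/SLX/LG.lean` (helper427).
-/

set_option autoImplicit false

namespace Pool.Agent.N891.SLK

open Pool.Agent.N637.SLK
open Pool.Agent.TH841.SH (LocC pt_pad)
open Pool.Agent.N875.X15 (sq_of_zmod)

section

variable {p : ℕ} [hp : Fact p.Prime]

lemma cz {n : ℤ} (hn : ¬ (p : ℤ) ∣ n) : ((n : ℤ) : ZMod p) ≠ 0 := fun h =>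
  hn ((ZMod.intCast_zmod_eq_zero_iff_dvd n p).1 h)

lemma zc {n : ℤ} (hn : (p : ℤ) ∣ n) : ((n : ℤ) : ZMod p) = 0 :=
  (ZMod.intCast_zmod_eq_zero_iff_dvd n p).2 hn

lemma sqz (hp2 : p ≠ 2) {n : ℤ} (hn : ((n : ℤ) : ZMod p) ≠ 0) (h : IsSquare ((n : ℤ) : ZMod p)) :
    IsSquare (n : ℚ_[p]) :=
  sq_of_zmod hp2 (fun hd => hn ((ZMod.intCast_zmod_eq_zero_iff_dvd n p).2 hd)) h

/-- the product of two nonresidues -/
lemma nn {u v : ZMod p} (hu : ¬ IsSquare u) (hv : ¬ IsSquare v) : IsSquare (u * v) := by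
  have hu0 : u ≠ 0 := by rintro rfl; exact hu ⟨0, by ring⟩
  have hv0 : v ≠ 0 := by rintro rfl; exact hv ⟨0, by ring⟩
  have h1 := quadraticChar_neg_one_iff_not_isSquare.2 hu
  have h2 := quadraticChar_neg_one_iff_not_isSquare.2 hv
  rw [← quadraticChar_one_iff_isSquare (mul_ne_zero hu0 hv0), map_mul, h1, h2]
  norm_num

lemma sqc {x y : ZMod p} (hy : y ≠ 0) (h : IsSquare (y * y * x)) : IsSquare x := by
  obtain ⟨r, hr⟩ := h
  refine ⟨r / y, ?_⟩
  field_simp
  rw [sq, sq, ← hr]; ring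

/-- a square plus `t` which is not a nonzero square -/
lemma exists_shift {t : ZMod p} (ht : t ≠ 0) : ∃ s : ZMod p, s ≠ 0 ∧ ∀ r, r ≠ 0 → s ^ 2 + t ≠ r ^ 2 := by
  by_contra hcon
  push Not at hcon
  have h1 : ∀ k : ℕ, ∃ r : ZMod p, r ≠ 0 ∧ 1 + (k : ZMod p) * t = r ^ 2 := by
    intro k
    induction k with
    | zero => exact ⟨1, one_ne_zero, by simp⟩
    | succ k ih =>
      obtain ⟨s, hs, hs1⟩ := ih
      obtain ⟨r, hr, hr1⟩ := hcon s hs
      refine ⟨r, hr, ?_⟩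
      rw [← hr1, ← hs1]
      push_cast
      ring
  obtain ⟨r, hr, hr1⟩ := h1 (-t⁻¹ : ZMod p).val
  rw [ZMod.natCast_zmod_val, neg_mul, inv_mul_cancel₀ ht, add_neg_cancel] at hr1
  exact pow_ne_zero 2 hr hr1.symm

/-- a square such that `s ^ 2 + t` is a nonresidue -/
lemma exists_nonres {t : ZMod p} (ht : t ≠ 0) (hn : ¬ IsSquare (-t)) :
    ∃ s : ZMod p, s ≠ 0 ∧ ¬ IsSquare (s ^ 2 + t) := by
  obtain ⟨s, hs, h⟩ := exists_shift ht
  refine ⟨s, hs, ?_⟩
  rintro ⟨r, hr⟩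
  by_cases hr0 : r = 0
  · subst hr0
    apply hn
    refine ⟨s, ?_⟩
    linear_combination (-1 : ZMod p) * hr
  · exact h r hr0 (by rw [hr]; ring)

/-- an integral point with good reduction outside of the points of order two -/
lemma ptl (hp2 : p ≠ 2) {m a c d1 d2 X : ℤ}
    (h1 : ((X * (X - a ^ 2 * m) * (X + (c ^ 2 - a ^ 2) * m) : ℤ) : ZMod p) ≠ 0)
    (h2 : IsSquare ((X * (X - a ^ 2 * m) * (X + (c ^ 2 - a ^ 2) * m) : ℤ) : ZMod p))
    (hd1 : (d1 : ZMod p) ≠ 0) (hd2 : (d2 : ZMod p) ≠ 0)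
    (h3 : IsSquare ((X * d1 : ℤ) : ZMod p)) (h4 : IsSquare (((X - a ^ 2 * m) * d2 : ℤ) : ZMod p)) :
    LocC ℚ_[p] 0 (a ^ 2 * m) (-(c ^ 2 - a ^ 2) * m) d1 d2 := by
  obtain ⟨Y, hY⟩ := sqz hp2 h1 h2
  have hX : ((X : ℤ) : ZMod p) ≠ 0 := by
    intro h
    apply h1
    rw [Int.cast_mul, Int.cast_mul, h]; ring
  have hX9 : ((X - a ^ 2 * m : ℤ) : ZMod p) ≠ 0 := by
    intro h
    apply h1
    rw [Int.cast_mul, Int.cast_mul, h]; ring
  refine ⟨(X : ℚ_[p]), Y, ?_, ?_, ?_, ?_⟩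
  · rintro rfl
    rw [mul_zero] at hY
    have h5 : (X * (X - a ^ 2 * m) * (X + (c ^ 2 - a ^ 2) * m) : ℤ) = 0 := by exact_mod_cast hY
    rw [h5] at h1
    exact h1 Int.cast_zero
  · push_cast at hY ⊢
    rw [sq, ← hY]; ring
  · have h5 := sqz hp2 (n := X * d1) (by rw [Int.cast_mul]; exact mul_ne_zero hX hd1) h3
    push_cast at h5 ⊢
    rwa [sub_zero]
  · have h5 := sqz hp2 (n := (X - a ^ 2 * m) * d2) (by rw [Int.cast_mul]; exact mul_ne_zero hX9 hd2) h4
    push_cast at h5 ⊢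
    exact h5

/-- the same with `X` in `ZMod p` -/
lemma ptz (hp2 : p ≠ 2) {m a c d1 d2 : ℤ} (x y : ZMod p) (hy : y ≠ 0)
    (h1 : y ^ 2 = x * (x - a ^ 2 * m) * (x + (c ^ 2 - a ^ 2) * m))
    (hd1 : (d1 : ZMod p) ≠ 0) (hd2 : (d2 : ZMod p) ≠ 0)
    (h3 : IsSquare (x * d1)) (h4 : IsSquare ((x - a ^ 2 * m) * d2)) :
    LocC ℚ_[p] 0 (a ^ 2 * m) (-(c ^ 2 - a ^ 2) * m) d1 d2 := by
  have hx : (((x.val : ℤ) : ℤ) : ZMod p) = x := by simp
  refine ptl hp2 (X := (x.val : ℤ)) ?_ ?_ hd1 hd2 ?_ ?_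
  · intro h
    push_cast at h hx
    rw [hx] at h
    apply pow_ne_zero 2 hy
    rw [h1]
    linear_combination h
  · refine ⟨y, ?_⟩
    push_cast at hx ⊢
    rw [hx, ← sq, h1]
  · push_cast at hx ⊢
    rw [hx]; exact h3
  · push_cast at hx ⊢
    rw [hx]; exact h4

/-- the places of good reduction -/
lemma good (hp2 : p ≠ 2) {m a c d1 d2 : ℤ} (hm : ¬ (p : ℤ) ∣ m) (ha : ¬ (p : ℤ) ∣ a)
    (hc : ¬ (p : ℤ) ∣ c) (hb : ¬ (p : ℤ) ∣ c ^ 2 - a ^ 2)
    (hd1 : ¬ (p : ℤ) ∣ d1) (hd2 : ¬ (p : ℤ) ∣ d2)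
    (ht : ∀ d1 d2 : ℤ, d1 ≠ 0 → d2 ≠ 0 →
      (IsSquare (d2 : ℚ_[p]) ∧ (IsSquare (d1 : ℚ_[p]) ∨ IsSquare ((d1 : ℚ_[p]) * m))) ∨
      (IsSquare ((d2 : ℚ_[p]) * (-m)) ∧ (IsSquare ((d1 : ℚ_[p]) * (-(c ^ 2 - a ^ 2))) ∨
        IsSquare ((d1 : ℚ_[p]) * (-(c ^ 2 - a ^ 2)) * m))) →
      LocC ℚ_[p] 0 (a ^ 2 * m) (-(c ^ 2 - a ^ 2) * m) d1 d2) :
    LocC ℚ_[p] 0 (a ^ 2 * m) (-(c ^ 2 - a ^ 2) * m) d1 d2 := by
  have zm := cz hm
  have za := cz ha
  have zc' := cz hc
  have zb := cz hb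
  have z1 := cz hd1
  have z2 := cz hd2
  have k2 : (2 : ZMod p) ≠ 0 := by
    intro h
    have h' : ((2 : ℕ) : ZMod p) = 0 := by exact_mod_cast h
    rw [ZMod.natCast_eq_zero_iff] at h'
    exact hp2 ((Nat.prime_dvd_prime_iff_eq hp.out Nat.prime_two).1 h')
  have k4 : (4 : ZMod p) ≠ 0 := by
    have : (4 : ZMod p) = 2 * 2 := by norm_num
    rw [this]; exact mul_ne_zero k2 k2
  have hab : (0 : ZMod p) ≠ a ^ 2 * m := (mul_ne_zero (pow_ne_zero 2 za) zm).symm
  have zb' : ((c : ZMod p) ^ 2 - a ^ 2) ≠ 0 := by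
    intro h
    apply zb
    push_cast
    exact h
  have hac : (0 : ZMod p) ≠ -(c ^ 2 - a ^ 2) * m := (mul_ne_zero (neg_ne_zero.2 zb') zm).symm
  have hbc : (a ^ 2 * m : ZMod p) ≠ -(c ^ 2 - a ^ 2) * m := by
    intro h
    have : (c : ZMod p) ^ 2 * m = 0 := by linear_combination h
    exact mul_ne_zero (pow_ne_zero 2 zc') zm this
  have n1 : d1 ≠ 0 := by rintro rfl; exact hd1 (dvd_zero _)
  have n2 : d2 ≠ 0 := by rintro rfl; exact hd2 (dvd_zero _)
  rcases Pool.Agent.N763.QB.all_cases k2 hab hac hbc z1 z2 with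
    ⟨x, y, hy, h1, h2, h3⟩ | ⟨h1, h2⟩ | ⟨h1, h2⟩ | ⟨h1, h2⟩ | ⟨h1, h2⟩
  · exact ptz hp2 x y hy (by rw [h1]; ring) z1 z2 (by rwa [sub_zero] at h2) h3
  · exact ht d1 d2 n1 n2 (Or.inl ⟨sqz hp2 z2 h2, Or.inl (sqz hp2 z1 h1)⟩)
  · refine ht d1 d2 n1 n2 (Or.inr ⟨?_, Or.inl ?_⟩)
    · have h5 : IsSquare ((d2 * (-m) : ℤ) : ZMod p) := by
        refine sqc (y := a) za ?_
        push_cast
        convert h2 using 1; ring
      have := sqz hp2 (by push_cast; exact mul_ne_zero z2 (neg_ne_zero.2 zm)) h5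
      push_cast at this; exact this
    · have h5 : IsSquare ((d1 * (-(c ^ 2 - a ^ 2)) : ℤ) : ZMod p) := by
        refine sqc (y := a * m) (mul_ne_zero za zm) ?_
        push_cast
        convert h1 using 1; ring
      have := sqz hp2 (by push_cast; exact mul_ne_zero z1 (neg_ne_zero.2 zb')) h5
      push_cast at this; exact this
  · refine ht d1 d2 n1 n2 (Or.inl ⟨?_, Or.inr ?_⟩)
    · refine sqz hp2 z2 ?_
      refine sqc (y := a * c * m) (mul_ne_zero (mul_ne_zero za zc') zm) ?_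
      convert h2 using 1; ring
    · have h5 : IsSquare ((d1 * m : ℤ) : ZMod p) := by
        refine sqc (y := a) za ?_
        push_cast
        convert h1 using 1; ring
      have := sqz hp2 (by push_cast; exact mul_ne_zero z1 zm) h5
      push_cast at this; exact this
  · refine ht d1 d2 n1 n2 (Or.inr ⟨?_, Or.inr ?_⟩)
    · have h5 : IsSquare ((d2 * (-m) : ℤ) : ZMod p) := by
        refine sqc (y := c) zc' ?_
        push_cast
        convert h2 using 1; ring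
      have := sqz hp2 (by push_cast; exact mul_ne_zero z2 (neg_ne_zero.2 zm)) h5
      push_cast at this; exact this
    · have h5 : IsSquare ((d1 * (-(c ^ 2 - a ^ 2)) * m : ℤ) : ZMod p) := by
        push_cast
        convert h1 using 1; ring
      have := sqz hp2 (by push_cast; exact mul_ne_zero (mul_ne_zero z1 (neg_ne_zero.2 zb')) zm) h5
      push_cast at this; exact this

/-- `LocC` depends only on the square classes -/
lemma locC_congr {K : Type} [Field K] [CharZero K] {a b c d1 d2 e1 e2 : ℤ} (h1 : d1 ≠ 0) (h2 : d2 ≠ 0)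
    (s1 : IsSquare ((d1 : K) * e1)) (s2 : IsSquare ((d2 : K) * e2)) (H : LocC K a b c d1 d2) :
    LocC K a b c e1 e2 := by
  obtain ⟨x, y, hy, he, q1, q2⟩ := H
  refine ⟨x, y, hy, he, ?_, ?_⟩
  · obtain ⟨r, hr⟩ := q1
    obtain ⟨t, ht⟩ := s1
    have hd : (d1 : K) ≠ 0 := by exact_mod_cast h1
    refine ⟨r * t / d1, ?_⟩
    field_simp
    linear_combination (e1 * d1 : K) * hr + r * r * ht
  · obtain ⟨r, hr⟩ := q2
    obtain ⟨t, ht⟩ := s2
    have hd : (d2 : K) ≠ 0 := by exact_mod_cast h2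
    refine ⟨r * t / d2, ?_⟩
    field_simp
    linear_combination (e2 * d2 : K) * hr + r * r * ht

end

theorem t_LG (hLT : S_LT) : S_LG := by
  intro m a c hcv hm p hp hp2 hpm d1 d2 hd1 hd2 h2 hiff
  have hm0 : m ≠ 0 := hm.neg.ne
  have triv : ∃ x y : ℚ_[p], y ≠ 0 ∧ y ^ 2 = x * (x - a ^ 2 * m) * (x + (c ^ 2 - a ^ 2) * m) ∧
      IsSquare x ∧ IsSquare (x - a ^ 2 * m) ∧ IsSquare (x + (c ^ 2 - a ^ 2) * m) := by
    obtain ⟨x, y, hy, h1, s1, s2, s3⟩ := pt_pad p 0 (a ^ 2 * m) (-(c ^ 2 - a ^ 2) * m)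
    push_cast at h1 s1 s2 s3
    rw [sub_zero] at h1 s1
    have e : x - -((c : ℚ_[p]) ^ 2 - a ^ 2) * m = x + (c ^ 2 - a ^ 2) * m := by ring
    refine ⟨x, y, hy, ?_, s1, s2, ?_⟩
    · rw [h1]; ring
    · rw [← e]
      exact s3
  obtain ⟨ht, hadd⟩ := hLT ℚ_[p] m a c hm0 hcv triv
  have n1 : d1 ≠ 0 := hd1.ne_zero
  have n2 : d2 ≠ 0 := hd2.ne_zero
  have zm := cz hpm
  have z2 := cz h2
  have hpi : Prime (p : ℤ) := Nat.prime_iff_prime_int.1 hp.out
  have hab : ¬ ((p : ℤ) ∣ a ∧ (p : ℤ) ∣ c) := by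
    rintro ⟨h3, h4⟩
    exact hpi.not_isUnit (hcv.co.isUnit_of_dvd' h3 h4)
  -- the case of good or half good reduction
  by_cases hb : (p : ℤ) ∣ c ^ 2 - a ^ 2
  · -- `p` divides `b`
    have ha : ¬ (p : ℤ) ∣ a := by
      intro h
      apply hab
      refine ⟨h, ?_⟩
      have h3 : (p : ℤ) ∣ c ^ 2 := by
        have := dvd_add hb (dvd_pow h two_ne_zero)
        rwa [sub_add_cancel] at this
      exact hpi.dvd_of_dvd_pow h3
    have za := cz ha
    have zb := zc hb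
    have zb' : (c : ZMod p) ^ 2 - a ^ 2 = 0 := by
      push_cast at zb
      exact zb
    have hnm : ¬ IsSquare ((-m : ℤ) : ZMod p) := by
      have h3 := hm.bb p hp.out hb
      rw [← jacobiSym.legendreSym.to_jacobiSym] at h3
      exact legendreSym.eq_neg_one_iff p |>.1 h3
    have hnm' : ¬ IsSquare (-(m : ZMod p)) := by
      push_cast at hnm
      exact hnm
    -- the class (nonresidue, 1)
    have key : ∀ e1 e2 : ℤ, ¬ IsSquare ((e1 : ℤ) : ZMod p) → ¬ (p : ℤ) ∣ e2 →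
        IsSquare ((e2 : ℤ) : ZMod p) → LocC ℚ_[p] 0 (a ^ 2 * m) (-(c ^ 2 - a ^ 2) * m) e1 e2 := by
      intro e1 e2 h3 h4 h5
      obtain ⟨s, hs, hs'⟩ := exists_nonres zm hnm'
      have hX0 : s ^ 2 + (m : ZMod p) ≠ 0 := fun h => hs' (by rw [h]; exact ⟨0, by ring⟩)
      have h30 : ((e1 : ℤ) : ZMod p) ≠ 0 := fun h => h3 (by rw [h]; exact ⟨0, by ring⟩)
      refine ptz hp2 (a ^ 2 * (s ^ 2 + m)) (a ^ 3 * s * (s ^ 2 + m)) ?_ ?_ h30 (cz h4) ?_ ?_
      · exact mul_ne_zero (mul_ne_zero (pow_ne_zero 3 za) hs) hX0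
      · rw [zb']; ring
      · obtain ⟨r, hr⟩ := nn hs' h3
        refine ⟨a * r, ?_⟩
        linear_combination (a ^ 2 : ZMod p) * hr
      · obtain ⟨r, hr⟩ := h5
        refine ⟨a * s * r, ?_⟩
        linear_combination (a ^ 2 * s ^ 2 : ZMod p) * hr
    by_cases h5 : IsSquare ((d2 : ℤ) : ZMod p)
    · -- `d2` is a residue
      have hd1p : ¬ (p : ℤ) ∣ d1 := by
        rw [hiff]
        rintro ⟨_, h6⟩
        rw [← jacobiSym.legendreSym.to_jacobiSym] at h6
        exact (legendreSym.eq_neg_one_iff p |>.1 h6) h5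
      by_cases h6 : IsSquare ((d1 : ℤ) : ZMod p)
      · exact ht d1 d2 n1 n2 (Or.inl ⟨sqz hp2 z2 h5, Or.inl (sqz hp2 (cz hd1p) h6)⟩)
      · exact key d1 d2 h6 h2 h5
    · -- `d2` is a nonresidue
      have h6 : jacobiSym d2 p = -1 := by
        rw [← jacobiSym.legendreSym.to_jacobiSym]
        exact legendreSym.eq_neg_one_iff p |>.2 h5
      have hb0 : c ^ 2 - a ^ 2 ≠ 0 := by
        intro h
        have h7 : c ^ 2 % 8 = 0 := by
          have h8 := hcv.hc
          rw [sq, Int.mul_emod, h8]; rfl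
        have h9 : a ^ 2 % 2 = 1 := by
          rw [sq, Int.mul_emod, hcv.ha]; rfl
        omega
      have hsq2 : IsSquare ((d2 : ℚ_[p]) * (-m)) := by
        have h7 : IsSquare ((d2 * (-m) : ℤ) : ZMod p) := by
          rw [Int.cast_mul]
          exact nn h5 hnm
        have := sqz hp2 (by rw [Int.cast_mul]; exact mul_ne_zero z2 (by push_cast; exact neg_ne_zero.2 zm)) h7
        push_cast at this
        exact this
      -- `d1 * b` has even valuation
      have hdb0 : d1 * (c ^ 2 - a ^ 2) ≠ 0 := mul_ne_zero n1 hb0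
      have hv1 : padicValInt p d1 = if (p : ℤ) ∣ d1 then 1 else 0 := by
        split_ifs with h7
        · have h8 : 1 ≤ padicValInt p d1 := by
            have := (padicValInt_dvd_iff 1 d1).1 (by simpa using h7)
            rcases this with h9 | h9
            · exact absurd h9 n1
            · exact h9
          have h9 : ¬ 2 ≤ padicValInt p d1 := by
            intro h10
            have h11 : (p : ℤ) ^ 2 ∣ d1 := (padicValInt_dvd_iff 2 d1).2 (Or.inr h10)
            rw [sq] at h11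
            exact hpi.not_isUnit (hd1 _ h11)
          omega
        · exact padicValInt.eq_zero_of_not_dvd h7
      have heven : Even (padicValInt p (d1 * (c ^ 2 - a ^ 2))) := by
        rw [padicValInt.mul n1 hb0, hv1]
        by_cases h7 : Odd (padicValInt p (c ^ 2 - a ^ 2))
        · rw [if_pos (hiff.2 ⟨h7, h6⟩)]
          exact Odd.add_odd odd_one h7
        · rw [if_neg (fun h8 => h7 (hiff.1 h8).1), zero_add]
          exact Nat.not_odd_iff_even.1 h7
      obtain ⟨k, hk⟩ := heven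
      have hdvd : (p : ℤ) ^ (k + k) ∣ d1 * (c ^ 2 - a ^ 2) := by
        rw [← hk]
        exact padicValInt_dvd _
      obtain ⟨w, hw⟩ := hdvd
      have hpw : ¬ (p : ℤ) ∣ w := by
        rintro ⟨w', hw'⟩
        have h7 : (p : ℤ) ^ (k + k + 1) ∣ d1 * (c ^ 2 - a ^ 2) := ⟨w', by rw [hw, hw']; ring⟩
        rcases (padicValInt_dvd_iff _ _).1 h7 with h8 | h8
        · exact hdb0 h8
        · omega
      have hwq : (d1 : ℚ_[p]) * (c ^ 2 - a ^ 2) = (p : ℚ_[p]) ^ (k + k) * w := by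
        exact_mod_cast congrArg (Int.cast : ℤ → ℚ_[p]) hw
      by_cases h7 : IsSquare ((-w : ℤ) : ZMod p)
      · -- torsion class
        refine ht d1 d2 n1 n2 (Or.inr ⟨hsq2, Or.inl ?_⟩)
        obtain ⟨r, hr⟩ := sqz hp2 (by push_cast; exact neg_ne_zero.2 (cz hpw)) h7
        push_cast at hr
        refine ⟨p ^ k * r, ?_⟩
        linear_combination (-1 : ℚ_[p]) * hwq + (p : ℚ_[p]) ^ (k + k) * hr
      · have h8 : IsSquare ((-w * -m : ℤ) : ZMod p) := by
          rw [Int.cast_mul]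
          exact nn h7 hnm
        have hT : LocC ℚ_[p] 0 (a ^ 2 * m) (-(c ^ 2 - a ^ 2) * m) (d1 * (-m)) d2 := by
          refine ht _ d2 (mul_ne_zero n1 (neg_ne_zero.2 hm0)) n2 (Or.inr ⟨hsq2, Or.inl ?_⟩)
          obtain ⟨r, hr⟩ := sqz hp2 (by
            rw [Int.cast_mul]
            push_cast
            exact mul_ne_zero (neg_ne_zero.2 (cz hpw)) (neg_ne_zero.2 zm)) h8
          push_cast at hr
          refine ⟨p ^ k * r, ?_⟩
          push_cast
          linear_combination (m : ℚ_[p]) * hwq + (p : ℚ_[p]) ^ (k + k) * hr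
        have h9 := hadd _ _ _ _ (mul_ne_zero n1 (neg_ne_zero.2 hm0)) n2 (neg_ne_zero.2 hm0) one_ne_zero
          hT (key (-m) 1 hnm (by
            intro h
            exact hpi.not_isUnit (isUnit_of_dvd_one h)) ⟨1, by simp⟩)
        refine locC_congr (mul_ne_zero (mul_ne_zero n1 (neg_ne_zero.2 hm0)) (neg_ne_zero.2 hm0))
          (mul_ne_zero n2 one_ne_zero) ⟨d1 * m, ?_⟩ ⟨d2, ?_⟩ h9
        · push_cast; ring
        · push_cast; ring
  · -- `p` does not divide `b`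
    have hv : padicValInt p (c ^ 2 - a ^ 2) = 0 := padicValInt.eq_zero_of_not_dvd hb
    have hd1p : ¬ (p : ℤ) ∣ d1 := by
      rw [hiff, hv]
      rintro ⟨h3, _⟩
      exact absurd h3 (by decide)
    by_cases hac : (p : ℤ) ∣ a * c
    · have hnm : ¬ IsSquare ((m : ℤ) : ZMod p) := by
        have h3 := hm.ac p hp.out hp2 hac
        rw [← jacobiSym.legendreSym.to_jacobiSym] at h3
        exact legendreSym.eq_neg_one_iff p |>.1 h3
      obtain ⟨s, hs, hs'⟩ := exists_nonres (t := -(m : ZMod p)) (neg_ne_zero.2 zm)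
        (by rw [neg_neg]; exact hnm)
      have hX0 : s ^ 2 + -(m : ZMod p) ≠ 0 := fun h => hs' (by rw [h]; exact ⟨0, by ring⟩)
      -- all classes with `e2` a residue
      have res : ∀ e1 e2 : ℤ, ¬ (p : ℤ) ∣ e1 → ¬ (p : ℤ) ∣ e2 → IsSquare ((e2 : ℤ) : ZMod p) →
          LocC ℚ_[p] 0 (a ^ 2 * m) (-(c ^ 2 - a ^ 2) * m) e1 e2 := by
        intro e1 e2 h3 h4 h5
        have h30 : e1 ≠ 0 := by rintro rfl; exact h3 (dvd_zero _)
        have h40 : e2 ≠ 0 := by rintro rfl; exact h4 (dvd_zero _)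
        refine ht e1 e2 h30 h40 (Or.inl ⟨sqz hp2 (cz h4) h5, ?_⟩)
        by_cases h6 : IsSquare ((e1 : ℤ) : ZMod p)
        · exact Or.inl (sqz hp2 (cz h3) h6)
        · right
          have h7 : IsSquare ((e1 * m : ℤ) : ZMod p) := by
            rw [Int.cast_mul]
            exact nn h6 hnm
          have := sqz hp2 (by rw [Int.cast_mul]; exact mul_ne_zero (cz h3) zm) h7
          push_cast at this
          exact this
      by_cases h5 : IsSquare ((d2 : ℤ) : ZMod p)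
      · exact res d1 d2 hd1p h2 h5
      · -- a point with `d2` a nonresidue
        have hpt : ∃ e : ℤ, ¬ (p : ℤ) ∣ e ∧ LocC ℚ_[p] 0 (a ^ 2 * m) (-(c ^ 2 - a ^ 2) * m) e d2 := by
          rcases hpi.dvd_or_dvd hac with ha | hc
          · -- `p` divides `a`
            have hc : ¬ (p : ℤ) ∣ c := fun h => hab ⟨ha, h⟩
            have zc' := cz hc
            have za := zc ha
            have h30 : ((m : ℤ) : ZMod p) ≠ 0 := zm
            refine ⟨m, hpm, ptz hp2 (c ^ 2 * (s ^ 2 + -m)) (c ^ 3 * s * (s ^ 2 + -m)) ?_ ?_ h30 z2 ?_ ?_⟩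
            · exact mul_ne_zero (mul_ne_zero (pow_ne_zero 3 zc') hs) hX0
            · rw [za]; ring
            · obtain ⟨r, hr⟩ := nn hs' hnm
              refine ⟨c * r, ?_⟩
              linear_combination (c ^ 2 : ZMod p) * hr
            · obtain ⟨r, hr⟩ := nn hs' h5
              refine ⟨c * r, ?_⟩
              rw [za]
              linear_combination (c ^ 2 : ZMod p) * hr
          · -- `p` divides `c`
            have ha : ¬ (p : ℤ) ∣ a := fun h => hab ⟨h, hc⟩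
            have za := cz ha
            have zc' := zc hc
            refine ⟨1, fun h => hpi.not_isUnit (isUnit_of_dvd_one h),
              ptz hp2 (a ^ 2 * s ^ 2) (a ^ 3 * s * (s ^ 2 + -m)) ?_ ?_ (by simp) z2 ?_ ?_⟩
            · exact mul_ne_zero (mul_ne_zero (pow_ne_zero 3 za) hs) hX0
            · rw [zc']; ring
            · refine ⟨a * s, ?_⟩
              push_cast
              ring
            · obtain ⟨r, hr⟩ := nn hs' h5
              refine ⟨a * r, ?_⟩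
              linear_combination (a ^ 2 : ZMod p) * hr
        obtain ⟨e, he, hL⟩ := hpt
        have he0 : e ≠ 0 := by rintro rfl; exact he (dvd_zero _)
        have hde : ¬ (p : ℤ) ∣ d1 * e := fun h => by
          rcases hpi.dvd_or_dvd h with h | h
          · exact hd1p h
          · exact he h
        have h9 := hadd _ _ _ _ he0 n2 (mul_ne_zero n1 he0) one_ne_zero hL
          (res (d1 * e) 1 hde (fun h => hpi.not_isUnit (isUnit_of_dvd_one h)) ⟨1, by simp⟩)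
        refine locC_congr (mul_ne_zero he0 (mul_ne_zero n1 he0)) (mul_ne_zero n2 one_ne_zero)
          ⟨d1 * e, ?_⟩ ⟨d2, ?_⟩ h9
        · push_cast; ring
        · push_cast; ring
    · refine good hp2 hpm (fun h => hac (dvd_mul_of_dvd_left h c))
        (fun h => hac (dvd_mul_of_dvd_right h a)) hb hd1p h2 ht

end Pool.Agent.N891.SLK
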